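import Mathlib

set_option autoImplicit false

/-! The set of irrational points of the Michael line is a functionally `G_δ` subset of a hereditarily
paracompact space which is `α`-embedded for no ordinal `α`; the subsets of it which are traces of
Baire sets of the space are described exactly. -/

namespace Pool.Agent.Results.MP_aca66f_gt.NoBorelClass

open Set Filter Topology Metric

section Defs

variable {X : Type} [TopologicalSpace X]

/-- `A` is functionally open: `A = f⁻¹((0,1])` for some continuous `f : X → [0,1]`. -/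
def FOpen (A : Set X) : Prop := ∃ f : X → unitInterval, Continuous f ∧ A = f ⁻¹' Ioc 0 1

/-- `A` is functionally closed: `A = f⁻¹(0)` for some continuous `f : X → [0,1]`. -/
def FClosed (A : Set X) : Prop := ∃ f : X → unitInterval, Continuous f ∧ A = f ⁻¹' {0}

/-- `A` is functionally `G_δ`. -/
def FunGδ (A : Set X) : Prop := ∃ U : ℕ → Set X, (∀ n, FOpen (U n)) ∧ A = ⋂ n, U n

/-- `A` is functionally `F_σ`. -/
def FunFσ (A : Set X) : Prop := ∃ Z : ℕ → Set X, (∀ n, FClosed (Z n)) ∧ A = ⋃ n, Z n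

/-- `FCls true α A`: `A` is of functionally additive class `α`; `FCls false α A`: `A` is of
functionally multiplicative class `α`.  Class `0`: the functionally open, resp. functionally closed
sets; a set is of additive (multiplicative) class `α > 0` if it is a countable union (intersection)
of sets of multiplicative (additive) classes `< α`. -/
inductive FCls : Bool → Ordinal.{0} → Set X → Prop
  | fopen (A : Set X) (h : FOpen A) : FCls true 0 A
  | fclosed (A : Set X) (h : FClosed A) : FCls false 0 A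
  | union (α : Ordinal.{0}) (A : ℕ → Set X) (β : ℕ → Ordinal.{0}) (hβ : ∀ n, β n < α)
      (h : ∀ n, FCls false (β n) (A n)) : FCls true α (⋃ n, A n)
  | inter (α : Ordinal.{0}) (A : ℕ → Set X) (β : ℕ → Ordinal.{0}) (hβ : ∀ n, β n < α)
      (h : ∀ n, FCls true (β n) (A n)) : FCls false α (⋂ n, A n)

/-- `E` is `α`-embedded in `X`: every subset of `E` of functionally additive (multiplicative) class
`α` in `E` is the trace of a set of functionally additive (multiplicative) class `α` in `X`. -/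
def Embedded (α : Ordinal.{0}) (E : Set X) : Prop :=
  ∀ (b : Bool) (A : Set E), FCls b α A → ∃ B : Set X, FCls b α B ∧ Subtype.val ⁻¹' B = A

/-- `E` is `1`-embedded in `X` (in the words of the problem). -/
def OneEmbedded (E : Set X) : Prop :=
  (∀ A : Set E, FunFσ A → ∃ B : Set X, FunFσ B ∧ Subtype.val ⁻¹' B = A) ∧
    (∀ A : Set E, FunGδ A → ∃ B : Set X, FunGδ B ∧ Subtype.val ⁻¹' B = A)

/-- `B` is a Baire (= functionally Borel) set: it lies in the `σ`-algebra generated by the
functionally closed sets. -/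
def Baire (B : Set X) : Prop :=
  @MeasurableSet X (MeasurableSpace.generateFrom {Z | FClosed Z}) B

end Defs

/-- The Michael line: the real line, with the irrational points made isolated. -/
def ML : Type := ℝ

instance : TopologicalSpace ML where
  IsOpen U := ∀ q : ℚ, (q : ℝ) ∈ U → ∃ r > 0, ball (q : ℝ) r ⊆ U
  isOpen_univ _ _ := ⟨1, one_pos, subset_univ _⟩
  isOpen_inter U V h h' q hq := by
    obtain ⟨r, h1, h2⟩ := h q hq.1
    obtain ⟨s, h3, h4⟩ := h' q hq.2
    exact ⟨min r s, lt_min h1 h3, subset_inter ((ball_subset_ball (min_le_left r s)).trans h2)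
      ((ball_subset_ball (min_le_right r s)).trans h4)⟩
  isOpen_sUnion S h := fun q ⟨U, h1, h2⟩ =>
    (h U h1 q h2).imp fun _ h => ⟨h.1, h.2.trans (subset_sUnion_of_mem h1)⟩

/-- the identity map from the Michael line to the real line -/
def e : ML → ℝ := id

/-- The set of irrational points of the Michael line. -/
def Irr : Set ML := {x | ∀ q : ℚ, e x ≠ q}

lemma ce : Continuous e := ⟨fun _ h q hq => Metric.isOpen_iff.1 h q hq⟩

instance : T2Space ML := T2Space.of_injective_continuous (f := e) Function.injective_id ce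

lemma isOpen_single {x : ML} (hx : x ∈ Irr) : IsOpen ({x} : Set ML) :=
  fun q hq => (hx q (Eq.symm hq)).elim

lemma open_of_irr {A : Set ML} (hA : A ⊆ Irr) : IsOpen A :=
  fun q hq => (hA hq q rfl).elim

/-- hereditary paracompactness -/
lemma para (S : Set ML) : ParacompactSpace S where
  locallyFinite_refinement := by
    intro ι s ho hc
    choose O hO hOs using fun a => isOpen_induced_iff.1 (ho a)
    let W : Set ℝ := ⋃ a, interior (O a : Set ℝ)
    have hWo : IsOpen W := isOpen_iUnion fun a => isOpen_interior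
    have hrat : ∀ x : S, e x.1 ∉ W → x.1 ∈ Irr := by
      intro x hx q hq
      have hx1 : x ∈ ⋃ a, s a := hc ▸ mem_univ x
      obtain ⟨a, ha⟩ := mem_iUnion.1 hx1
      rw [← hOs a] at ha
      have ha' : (x.1 : ML) ∈ O a := ha
      have hxq : (x.1 : ML) = ((q : ℝ) : ML) := hq
      rw [hxq] at ha'
      obtain ⟨r, hr, hb⟩ := hO a q ha'
      refine hx (mem_iUnion.2 ⟨a, ?_⟩)
      rw [hq]
      exact interior_maximal hb isOpen_ball (mem_ball_self hr)
    obtain ⟨β, t, hto, htc, htl, hts⟩ := ParacompactSpace.locallyFinite_refinement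
      (X := W) ι (fun a => Subtype.val ⁻¹' interior (O a : Set ℝ))
      (fun a => isOpen_interior.preimage continuous_subtype_val)
      (by
        ext x
        simp only [mem_iUnion, mem_preimage, mem_univ, iff_true]
        exact mem_iUnion.1 x.2)
    -- the new cover
    let T : β ⊕ {x : S // e x.1 ∉ W} → Set S := fun b =>
      match b with
      | Sum.inl b => (fun x : S => e x.1) ⁻¹' (Subtype.val '' t b)
      | Sum.inr x => {x.1}
    have hec : Continuous fun x : S => e x.1 := ce.comp continuous_subtype_val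
    refine ⟨β ⊕ {x : S // e x.1 ∉ W}, T, ?_, ?_, ?_, ?_⟩
    · rintro (b | x)
      · exact (hWo.isOpenMap_subtype_val _ (hto b)).preimage hec
      · have h1 : ({x.1} : Set S) = Subtype.val ⁻¹' ({x.1.1} : Set ML) := by
          ext y; simp [Subtype.ext_iff]
        show IsOpen ({x.1} : Set S)
        rw [h1]
        exact (isOpen_single (hrat _ x.2)).preimage continuous_subtype_val
    · refine eq_univ_of_forall fun x => ?_
      by_cases hx : e x.1 ∈ W
      · have h1 : (⟨e x.1, hx⟩ : W) ∈ ⋃ b, t b := htc ▸ mem_univ _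
        obtain ⟨b, hb⟩ := mem_iUnion.1 h1
        exact mem_iUnion.2 ⟨Sum.inl b, ⟨⟨e x.1, hx⟩, hb, rfl⟩⟩
      · exact mem_iUnion.2 ⟨Sum.inr ⟨x, hx⟩, rfl⟩
    · intro x
      by_cases hx : e x.1 ∈ W
      · obtain ⟨N, hN, hfin⟩ := htl ⟨e x.1, hx⟩
        refine ⟨(fun x : S => e x.1) ⁻¹' (Subtype.val '' N), ?_, ?_⟩
        · refine hec.continuousAt.preimage_mem_nhds ?_
          exact (hWo.isOpenEmbedding_subtypeVal.image_mem_nhds (x := ⟨e x.1, hx⟩)).2 hN
        · refine (hfin.image Sum.inl).subset ?_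
          rintro (b | y) ⟨z, hz1, hz2⟩
          · obtain ⟨u, hu1, hu2⟩ := hz1
            obtain ⟨v, hv1, hv2⟩ := hz2
            have huv : u = v := Subtype.ext (hu2.trans hv2.symm)
            exact ⟨b, ⟨u, hu1, huv ▸ hv1⟩, rfl⟩
          · obtain ⟨v, hv1, hv2⟩ := hz2
            have hzy : z = y.1 := hz1
            subst hzy
            have hv3 : (v : ℝ) = e y.1.1 := hv2
            exact (y.2 (hv3 ▸ v.2)).elim
      · refine ⟨{x}, ?_, ?_⟩
        · have h1 : ({x} : Set S) = Subtype.val ⁻¹' ({x.1} : Set ML) := by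
            ext y; simp [Subtype.ext_iff]
          rw [h1]
          exact ((isOpen_single (hrat _ hx)).preimage continuous_subtype_val).mem_nhds rfl
        · refine (Set.finite_singleton (Sum.inr ⟨x, hx⟩)).subset ?_
          rintro (b | y) ⟨z, hz1, hz2⟩
          · obtain ⟨v, hv1, hv2⟩ := hz1
            have hzx : z = x := hz2
            subst hzx
            have hv3 : (v : ℝ) = e z.1 := hv2
            exact (hx (hv3 ▸ v.2)).elim
          · have hzy : z = y.1 := hz1
            have hzx : z = x := hz2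
            refine congrArg Sum.inr (Subtype.ext (hzy.symm.trans hzx))
    · rintro (b | x)
      · obtain ⟨a, ha⟩ := hts b
        refine ⟨a, ?_⟩
        rintro y ⟨v, hv1, hv2⟩
        have h1 := ha hv1
        rw [← hOs a]
        have h2 : (v : ℝ) ∈ (O a : Set ℝ) := interior_subset h1
        rw [hv2] at h2
        exact h2
      · have hx1 : x.1 ∈ ⋃ a, s a := hc ▸ mem_univ _
        obtain ⟨a, ha⟩ := mem_iUnion.1 hx1
        exact ⟨a, by rintro y rfl; exact ha⟩

lemma fopen_compl {X : Type} [TopologicalSpace X] {A : Set X} (h : FClosed A) : FOpen Aᶜ := by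
  obtain ⟨f, hf, rfl⟩ := h
  refine ⟨f, hf, ?_⟩
  ext x
  simp only [mem_compl_iff, mem_preimage, mem_singleton_iff, mem_Ioc]
  exact ⟨fun h => ⟨unitInterval.pos_iff_ne_zero.2 h, unitInterval.le_one'⟩, fun h => h.1.ne'⟩

lemma fclosed_compl {X : Type} [TopologicalSpace X] {A : Set X} (h : FOpen A) : FClosed Aᶜ := by
  obtain ⟨f, hf, rfl⟩ := h
  refine ⟨f, hf, ?_⟩
  ext x
  simp only [mem_compl_iff, mem_preimage, mem_singleton_iff, mem_Ioc, not_and, not_le]
  constructor
  · intro h
    by_contra h1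
    exact absurd (h (unitInterval.pos_iff_ne_zero.2 h1)) (not_lt.2 unitInterval.le_one')
  · intro h h1
    exact absurd h h1.ne'

lemma Baire.of_fclosed {X : Type} [TopologicalSpace X] {A : Set X} (h : FClosed A) : Baire A :=
  MeasurableSpace.measurableSet_generateFrom h

lemma Baire.of_fopen {X : Type} [TopologicalSpace X] {A : Set X} (h : FOpen A) : Baire A := by
  have h1 := Baire.of_fclosed (fclosed_compl h)
  have h2 := @MeasurableSet.compl X Aᶜ (MeasurableSpace.generateFrom {Z | FClosed Z}) h1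
  rwa [compl_compl] at h2

lemma Baire.of_cls {X : Type} [TopologicalSpace X] {b : Bool} {α : Ordinal.{0}} {A : Set X}
    (h : FCls b α A) : Baire A := by
  induction h with
  | fopen A h => exact Baire.of_fopen h
  | fclosed A h => exact Baire.of_fclosed h
  | union α A β hβ h ih =>
    exact @MeasurableSet.iUnion X ℕ (MeasurableSpace.generateFrom {Z | FClosed Z}) _ A ih
  | inter α A β hβ h ih =>
    exact @MeasurableSet.iInter X ℕ (MeasurableSpace.generateFrom {Z | FClosed Z}) _ A ih

/-- a functionally closed set of the Michael line is relatively closed in a `G_δ` set containing the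
rationals -/
lemma fclosed_trace {Z : Set ML} (h : FClosed Z) : ∃ G : Set ℝ, IsGδ G ∧ (∀ q : ℚ, (q : ℝ) ∈ G) ∧
    MeasurableSet ((e '' Z) ∩ G) := by
  obtain ⟨f, hf, rfl⟩ := h
  let g : ℝ → ℝ := fun x => (f (x : ML) : ℝ)
  refine ⟨{x | ContinuousAt g x}, IsGδ.setOfPred_continuousAt g, ?_, ?_⟩
  · intro q
    have hg : Continuous fun x : ML => (f x : ℝ) := continuous_subtype_val.comp hf
    show ContinuousAt g q
    rw [Metric.continuousAt_iff']
    intro ε hε
    have ho : IsOpen ((fun x : ML => (f x : ℝ)) ⁻¹' ball (g q) ε) := isOpen_ball.preimage hg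
    obtain ⟨r, hr, hb⟩ := ho q (mem_ball_self hε)
    exact Filter.mem_of_superset (ball_mem_nhds (q : ℝ) hr) hb
  · have h1 : (e '' (f ⁻¹' {0})) ∩ {x | ContinuousAt g x} =
        closure {x : ℝ | g x = 0} ∩ {x | ContinuousAt g x} := by
      ext x
      constructor
      · rintro ⟨⟨y, hy, rfl⟩, hx⟩
        refine ⟨subset_closure ?_, hx⟩
        show ((f y : unitInterval) : ℝ) = 0
        have hy' : f y = 0 := hy
        rw [hy']; rfl
      · rintro ⟨hx, hc⟩
        refine ⟨⟨x, ?_, rfl⟩, hc⟩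
        have h2 : g x ∈ closure (g '' {x : ℝ | g x = 0}) := mem_closure_image hc hx
        have h3 : closure (g '' {x : ℝ | g x = 0}) ⊆ {0} := by
          refine closure_minimal ?_ isClosed_singleton
          rintro _ ⟨y, hy, rfl⟩
          exact hy
        have h4 : g x = 0 := h3 h2
        exact Subtype.ext h4
    rw [h1]
    exact isClosed_closure.measurableSet.inter (IsGδ.setOfPred_continuousAt g).measurableSet

lemma baire_trace {B : Set ML} (h : Baire B) : ∃ G : Set ℝ, IsGδ G ∧ (∀ q : ℚ, (q : ℝ) ∈ G) ∧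
    MeasurableSet ((e '' B) ∩ G) := by
  refine MeasurableSpace.generateFrom_induction {Z | FClosed Z}
    (fun B _ => ∃ G : Set ℝ, IsGδ G ∧ (∀ q : ℚ, (q : ℝ) ∈ G) ∧ MeasurableSet ((e '' B) ∩ G))
    ?_ ?_ ?_ ?_ B h
  · intro Z hZ _
    exact fclosed_trace hZ
  · exact ⟨univ, IsGδ.univ, fun _ => mem_univ _, by simp⟩
  · rintro B _ ⟨G, h1, h2, h3⟩
    refine ⟨G, h1, h2, ?_⟩
    have h4 : (e '' Bᶜ) ∩ G = G \ ((e '' B) ∩ G) := by
      rw [image_compl_eq (f := e) Function.bijective_id]
      ext x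
      simp only [mem_inter_iff, mem_compl_iff, Set.mem_sdiff]
      tauto
    rw [h4]
    exact h1.measurableSet.diff h3
  · intro B _ hB
    choose G h1 h2 h3 using hB
    refine ⟨⋂ n, G n, IsGδ.iInter h1, fun q => mem_iInter.2 fun n => h2 n q, ?_⟩
    have h4 : (e '' ⋃ n, B n) ∩ (⋂ n, G n) = (⋃ n, (e '' B n) ∩ G n) ∩ ⋂ n, G n := by
      rw [image_iUnion]
      ext x
      simp only [mem_inter_iff, mem_iUnion, mem_iInter]
      constructor
      · rintro ⟨⟨n, hn⟩, h⟩
        exact ⟨⟨n, hn, h n⟩, h⟩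
      · rintro ⟨⟨n, hn, _⟩, h⟩
        exact ⟨⟨n, hn⟩, h⟩
    rw [h4]
    exact (MeasurableSet.iUnion h3).inter (IsGδ.iInter h1).measurableSet

/-- a clopen set is functionally closed -/
lemma fclosed_of_clopen {X : Type} [TopologicalSpace X] {A : Set X} (h : IsClopen A) :
    FClosed A := by
  classical
  refine ⟨fun x => if x ∈ A then 0 else 1, ?_, ?_⟩
  · refine Continuous.if (fun a ha => ?_) continuous_const continuous_const
    have h1 : a ∈ frontier A := ha
    rw [h.frontier_eq] at h1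
    exact h1.elim
  · ext x
    by_cases hx : x ∈ A <;> simp [hx]

lemma fopen_of_clopen {X : Type} [TopologicalSpace X] {A : Set X} (h : IsClopen A) :
    FOpen A := by
  have := fopen_compl (fclosed_of_clopen h.compl)
  rwa [compl_compl] at this

lemma baire_preimage {B : Set ℝ} (h : MeasurableSet B) : Baire (e ⁻¹' B) := by
  have key : ∀ C : Set ℝ, IsClosed C → Baire (e ⁻¹' C) := by
    intro C hC
    refine Baire.of_fclosed ?_
    rcases C.eq_empty_or_nonempty with rfl | hne
    · exact ⟨fun _ => 1, continuous_const, by ext x; simp⟩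
    · refine ⟨fun x => projIcc (0 : ℝ) 1 zero_le_one (infDist (e x) C),
        continuous_projIcc.comp ((continuous_infDist_pt C).comp ce), ?_⟩
      ext x
      simp only [mem_preimage, mem_singleton_iff]
      rw [hC.mem_iff_infDist_zero hne]
      constructor
      · intro h1
        rw [h1]
        exact projIcc_left (h := zero_le_one (α := ℝ))
      · intro h1
        have h2 : infDist (e x) C ≤ 0 := (projIcc_eq_left (zero_lt_one (α := ℝ))).1 h1
        exact le_antisymm h2 infDist_nonneg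
  let _ : MeasurableSpace ML := MeasurableSpace.generateFrom {Z | FClosed Z}
  exact (measurable_of_isClosed (f := e) fun C hC => key C hC) h

lemma borel_irr : MeasurableSet {x : ℝ | ∀ q : ℚ, x ≠ q} := by
  have h : {x : ℝ | ∀ q : ℚ, x ≠ q} = (range ((↑) : ℚ → ℝ))ᶜ := by
    ext x
    simp only [mem_ofPred_eq, mem_compl_iff, mem_range, not_exists]
    exact ⟨fun h q hq => h q hq.symm, fun h q hq => h q hq.symm⟩
  rw [h]
  exact (countable_range _).measurableSet.compl

lemma baire_iff (A : Set ML) (hA : A ⊆ Irr) : (∃ B : Set ML, Baire B ∧ B ∩ Irr = A) ↔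
    ∃ G : Set ℝ, IsGδ G ∧ (∀ q : ℚ, (q : ℝ) ∈ G) ∧ MeasurableSet ((e '' A) ∩ G) := by
  constructor
  · rintro ⟨B, hB, rfl⟩
    obtain ⟨G, h1, h2, h3⟩ := baire_trace hB
    refine ⟨G, h1, h2, ?_⟩
    have h4 : (e '' (B ∩ Irr)) ∩ G = ((e '' B) ∩ G) ∩ {x : ℝ | ∀ q : ℚ, x ≠ q} := by
      ext x
      constructor
      · rintro ⟨⟨y, ⟨hy1, hy2⟩, rfl⟩, hx⟩
        exact ⟨⟨⟨y, hy1, rfl⟩, hx⟩, hy2⟩
      · rintro ⟨⟨⟨y, hy1, rfl⟩, hx⟩, hy2⟩
        exact ⟨⟨y, ⟨hy1, hy2⟩, rfl⟩, hx⟩
    rw [h4]
    exact h3.inter borel_irr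
  · rintro ⟨G, h1, h2, h3⟩
    obtain ⟨U, hU, rfl⟩ := h1.eq_iInter_nat
    refine ⟨A, ?_, inter_eq_left.2 hA⟩
    have h4 : A = e ⁻¹' ((e '' A) ∩ ⋂ n, U n) ∪ ⋃ n, (A ∩ e ⁻¹' (U n)ᶜ) := by
      ext x
      constructor
      · intro hx
        by_cases h : ∀ n, e x ∈ U n
        · exact Or.inl ⟨⟨x, hx, rfl⟩, mem_iInter.2 h⟩
        · push Not at h
          obtain ⟨n, hn⟩ := h
          exact Or.inr (mem_iUnion.2 ⟨n, hx, hn⟩)
      · rintro (⟨⟨y, hy, hyx⟩, -⟩ | h)
        · have hyx' : y = x := hyx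
          exact hyx' ▸ hy
        · obtain ⟨n, hn, -⟩ := mem_iUnion.1 h
          exact hn
    have h5 : ∀ n, Baire (A ∩ e ⁻¹' (U n)ᶜ) := by
      intro n
      refine Baire.of_fclosed (fclosed_of_clopen ⟨?_, open_of_irr fun x hx => hA hx.1⟩)
      rw [← isOpen_compl_iff]
      have h6 : (A ∩ e ⁻¹' (U n)ᶜ)ᶜ = e ⁻¹' (U n) ∪ (e ⁻¹' (U n)ᶜ \ A) := by
        ext x
        simp only [mem_compl_iff, mem_inter_iff, mem_preimage, mem_union, Set.mem_sdiff]
        tauto
      rw [h6]
      refine ((hU n).preimage ce).union (open_of_irr fun x hx q hq => hx.1 ?_)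
      have h7 : (q : ℝ) ∈ U n := mem_iInter.1 (h2 q) n
      rw [hq]
      exact h7
    have h8 := @MeasurableSet.union ML (MeasurableSpace.generateFrom {Z | FClosed Z}) _ _
      (baire_preimage h3) (@MeasurableSet.iUnion ML ℕ
        (MeasurableSpace.generateFrom {Z | FClosed Z}) _ _ h5)
    rw [← h4] at h8
    exact h8

/-- Vitali's set does not have the Baire property. -/
lemma vitali : ∃ V : Set ℝ, ¬ IsMeagre V ∧
    ∀ U, IsOpen U → U.Nonempty → ¬ IsMeagre (U \ V) := by
  let H := (Rat.castHom ℝ).toAddMonoidHom.range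
  let V := range fun c : ℝ ⧸ H => c.out
  have t (A : Set ℝ) (hA : IsMeagre A) (q : ℝ) : IsMeagre ((· + q) ⁻¹' A) :=
    hA.preimage_of_isOpenMap (continuous_add_const q) (isOpenMap_add_right q)
  refine ⟨V, fun h => not_isMeagre_of_isOpen isOpen_univ univ_nonempty
    ((isMeagre_iUnion fun q : ℚ => t V h q).mono fun x _ => ?_), fun U h1 ⟨x, hx⟩ h2 => ?_⟩
  · obtain ⟨⟨_, q, rfl⟩, hq⟩ := QuotientAddGroup.mk_out_eq_add H x
    exact mem_iUnion.2 ⟨q, _, hq⟩
  obtain ⟨r, h3, h4⟩ := Metric.isOpen_iff.1 h1 x hx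
  obtain ⟨q, h5, h6⟩ := exists_rat_btwn h3
  refine not_isMeagre_of_isOpen (h1.inter (h1.preimage (continuous_add_const (q : ℝ))))
    ⟨x, hx, h4 (by rwa [mem_ball, Real.dist_eq, add_sub_cancel_left, abs_of_pos h5])⟩
    ((h2.union (t _ h2 q)).mono fun y hy => ?_)
  by_contra k
  simp only [mem_union, mem_preimage, Set.mem_sdiff, not_or, not_and, not_not] at k
  obtain ⟨a, ha⟩ := k.1 hy.1
  obtain ⟨b, hb⟩ := k.2 hy.2
  have : a = b := by
    rw [← a.out_eq, ← b.out_eq]
    exact QuotientAddGroup.leftRel_apply.2 ⟨q, by simp only at ha hb; rw [ha, hb]; simp⟩ |>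
      Quotient.sound
  subst this
  exact h5.ne' (by simpa using hb.symm.trans ha)

lemma exists_noTrace : ∃ A : Set ML, A ⊆ Irr ∧ ∀ B : Set ML, Baire B → B ∩ Irr ≠ A := by
  obtain ⟨V, h1, h2⟩ := vitali
  refine ⟨e ⁻¹' V ∩ Irr, inter_subset_right, fun B hB hBA => ?_⟩
  obtain ⟨G, hG, hq, hm⟩ := (baire_iff _ inter_subset_right).1 ⟨B, hB, hBA⟩
  have hGr : G ∈ residual ℝ := residual_of_dense_Gδ hG
    (Rat.denseRange_cast.mono (by rintro _ ⟨q, rfl⟩; exact hq q))
  have hIr : {x : ℝ | ∀ q : ℚ, x ≠ q} ∈ residual ℝ := by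
    have h : {x : ℝ | ∀ q : ℚ, x ≠ q} = {x | Irrational x} := by
      ext x
      simp only [mem_ofPred_eq, Irrational, mem_range, not_exists]
      exact ⟨fun h q hq => h q hq.symm, fun h q hq => h q hq.symm⟩
    rw [h]
    exact eventually_residual_irrational
  have hVm : BaireMeasurableSet V := by
    refine hm.baireMeasurableSet.congr ?_
    filter_upwards [hGr, hIr] with x hx1 hx2
    refine propext ⟨?_, ?_⟩
    · rintro ⟨⟨y, ⟨hy, -⟩, hyx⟩, -⟩
      have hyx' : e y = x := hyx
      rw [← hyx']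
      exact hy
    · intro hx
      exact ⟨⟨x, ⟨hx, hx2⟩, rfl⟩, hx1⟩
  obtain ⟨U, hU, hVU⟩ := hVm.residualEq_isOpen
  rcases U.eq_empty_or_nonempty with rfl | hne
  · refine h1 ?_
    show Vᶜ ∈ residual ℝ
    filter_upwards [hVU] with x hx hxV
    have : x ∈ (∅ : Set ℝ) := hx.mp hxV
    exact this
  · refine h2 U hU hne ?_
    show (U \ V)ᶜ ∈ residual ℝ
    filter_upwards [hVU] with x hx hxV
    exact hxV.2 (hx.mpr hxV.1)

instance discr : DiscreteTopology Irr :=
  discreteTopology_iff_isOpen_singleton.2 fun x => by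
    have h1 : ({x} : Set Irr) = Subtype.val ⁻¹' ({x.1} : Set ML) := by
      ext y; simp [Subtype.ext_iff]
    rw [h1]
    exact (isOpen_single x.2).preimage continuous_subtype_val

lemma funGδ_irr : FunGδ Irr := by
  obtain ⟨g, hg⟩ := exists_surjective_nat ℚ
  refine ⟨fun n => {x | e x ≠ g n}, fun n => ⟨fun x => projIcc 0 1 zero_le_one (dist (e x) (g n)),
      continuous_projIcc.comp (ce.dist continuous_const), Set.ext fun x => ?_⟩, Set.ext fun x => ?_⟩
  · simp [pos_iff_ne_zero, projIcc_eq_zero, unitInterval.le_one']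
  · simp [Irr, hg.forall]

lemma trace_eq {A B : Set ML} (hA : A ⊆ Irr)
    (h : (Subtype.val ⁻¹' B : Set Irr) = Subtype.val ⁻¹' A) : B ∩ Irr = A := by
  rw [Subtype.preimage_val_eq_preimage_val_iff] at h
  rw [inter_comm, h, inter_eq_right.2 hA]

/-- **Main result.**  The Michael line `ML` is a hereditarily paracompact (hence hereditarily normal)
Hausdorff space; the set `Irr` of its irrational points is functionally `G_δ`, open and discrete; a
set `A ⊆ Irr` is the trace on `Irr` of a Baire set of `ML` if and only if `A ∩ G` is a Borel subset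
of the real line for some `G_δ` set `G ⊆ ℝ` containing the rationals; some `A ⊆ Irr` (clopen in
`Irr`) is not the trace of any Baire set; `Irr` is `α`-embedded in `ML` for no ordinal `α`, and in
particular it is not `1`-embedded. -/
theorem result :
    T2Space ML ∧ (∀ S : Set ML, NormalSpace S ∧ ParacompactSpace S) ∧
    FunGδ Irr ∧ IsOpen Irr ∧ DiscreteTopology Irr ∧
    (∀ A : Set ML, A ⊆ Irr → ((∃ B : Set ML, Baire B ∧ B ∩ Irr = A) ↔
      ∃ G : Set ℝ, IsGδ G ∧ (∀ q : ℚ, (q : ℝ) ∈ G) ∧ MeasurableSet ((e '' A) ∩ G))) ∧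
    (∃ A : Set ML, A ⊆ Irr ∧ ∀ B : Set ML, Baire B → B ∩ Irr ≠ A) ∧
    (∀ α : Ordinal.{0}, ¬ Embedded α Irr) ∧ ¬ OneEmbedded Irr := by
  refine ⟨inferInstance, fun S => ?_, funGδ_irr, open_of_irr subset_rfl, discr, baire_iff,
    exists_noTrace, ?_, ?_⟩
  · have := para S
    exact ⟨inferInstance, this⟩
  · intro α hα
    obtain ⟨A, hAI, hA⟩ := exists_noTrace
    have h1 : FCls true α (Subtype.val ⁻¹' A : Set Irr) := by
      rcases eq_or_ne α 0 with rfl | h0
      · exact FCls.fopen _ (fopen_of_clopen (isClopen_discrete _))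
      · have := FCls.union α (fun _ => (Subtype.val ⁻¹' A : Set Irr)) (fun _ => 0)
          (fun _ => pos_iff_ne_zero.2 h0)
          (fun _ => FCls.fclosed _ (fclosed_of_clopen (isClopen_discrete _)))
        rwa [iUnion_const] at this
    obtain ⟨B, hB, hBA⟩ := hα true _ h1
    exact hA B (Baire.of_cls hB) (trace_eq hAI hBA)
  · rintro ⟨h, -⟩
    obtain ⟨A, hAI, hA⟩ := exists_noTrace
    obtain ⟨B, ⟨Z, hZ, rfl⟩, hBA⟩ := h (Subtype.val ⁻¹' A)
      ⟨fun _ => Subtype.val ⁻¹' A, fun _ => fclosed_of_clopen (isClopen_discrete _),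
        (iUnion_const _).symm⟩
    exact hA _ (@MeasurableSet.iUnion ML ℕ (MeasurableSpace.generateFrom {Z | FClosed Z}) _ _
      fun n => Baire.of_fclosed (hZ n)) (trace_eq hAI hBA)

end Pool.Agent.Results.MP_aca66f_gt.NoBorelClass
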